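import Pool.Agent.helper38.OP.Spec

set_option autoImplicit false

namespace Pool.Agent.OP

open Finset Real Pool.Agent.AT Pool.Agent.helper85.FC Pool.Agent.OM

theorem K4L_cs {α : Type} (V : Finset α) (w s : α → ℝ) (n : ℝ) (hw : ∀ x ∈ V, 0 ≤ w x ∧ w x ≤ 1)
    (hn : (#V : ℝ) = n) : (∑ x ∈ V, w x * s x) ^ 2 ≤ n * ∑ x ∈ V, w x * s x ^ 2 := by
  have h1 : (∑ x ∈ V, w x * s x) ^ 2 ≤ (∑ x ∈ V, w x) * ∑ x ∈ V, w x * s x ^ 2 := by
    apply Finset.sum_sq_le_sum_mul_sum_of_sq_le_mul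
    · intro x hx; exact (hw x hx).1
    · intro x hx; exact mul_nonneg (hw x hx).1 (sq_nonneg _)
    · intro x _; exact le_of_eq (by ring)
  have h2 : ∑ x ∈ V, w x ≤ n := by
    calc ∑ x ∈ V, w x ≤ ∑ _x ∈ V, (1 : ℝ) := Finset.sum_le_sum fun x hx => (hw x hx).2
      _ = n := by rw [Finset.sum_const, nsmul_eq_mul, mul_one, hn]
  have h3 : 0 ≤ ∑ x ∈ V, w x * s x ^ 2 :=
    Finset.sum_nonneg fun x hx => mul_nonneg (hw x hx).1 (sq_nonneg _)
  exact h1.trans (mul_le_mul_of_nonneg_right h2 h3)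

theorem K4L (hTYP : TYP_stmt) : K4L_stmt := by
  classical
  intro L M N η hM hN hη hη1 hL U f hU hf hper havg
  set Y : ℕ := M * N with hYdef
  have hY1 : 1 ≤ Y := Nat.mul_pos hM hN
  have hMY : M ≤ Y := Nat.le_mul_of_pos_right M hN
  set V := VV L Y with hV
  have hMN : ((M : ℝ) * N) = (Y : ℝ) := by rw [hYdef]; push_cast; ring
  set n : ℝ := (L : ℝ) * Y with hn
  have hcard : (#V : ℝ) = n := by
    rw [hV, VV, Finset.card_product, Finset.card_range, Finset.card_range]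
    push_cast
    rfl
  have hYpos : (0 : ℝ) < Y := by exact_mod_cast hY1
  have hLpos : (0 : ℝ) < L := by
    by_contra hneg
    push Not at hneg
    have : η ^ 2 * (L : ℝ) ≤ 0 := mul_nonpos_of_nonneg_of_nonpos (sq_nonneg _) hneg
    linarith
  have hnpos : 0 < n := mul_pos hLpos hYpos
  -- the extended function
  set F : ℕ × ℕ → ℕ × ℕ → ℝ := fun p p' => if p'.1 < p.1 then f p p' else 0 with hF
  have hFb : ∀ g ∈ V, ∀ h : ℕ × ℕ, 0 ≤ F g h ∧ F g h ≤ 1 := by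
    intro g hg h
    simp only [hF]
    split_ifs with hlt
    · have hg' := hg
      rw [hV, VV, Finset.mem_product, Finset.mem_range, Finset.mem_range] at hg'
      have hmem : (h.1, h.2 % M) ∈ V := by
        rw [hV, VV, Finset.mem_product, Finset.mem_range, Finset.mem_range]
        exact ⟨lt_trans hlt hg'.1, lt_of_lt_of_le (Nat.mod_lt _ hM) hMY⟩
      have h1 := hf g hg (h.1, h.2 % M) hmem hlt
      have h2 : f g h = f g (h.1, h.2 % M) := hper g h.1 h.2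
      rw [h2]
      exact ⟨h1.1, h1.2.1⟩
    · exact ⟨le_refl _, zero_le_one⟩
  have hFp : ∀ g : ℕ × ℕ, ∀ j y : ℕ, F g (j, y) = F g (j, y % M) := by
    intro g j y
    simp only [hF]
    split_ifs with hlt
    · exact hper g j y
    · rfl
  have hFU : ∀ g ∈ V, ∀ h ∈ V, F g h ≤ U g h := by
    intro g hg h hh
    simp only [hF]
    split_ifs with hlt
    · exact (hf g hg h hh hlt).2.2
    · exact hU g h
  have hTF : ∀ c : ℕ × ℕ → ℝ, (∀ p, 0 ≤ c p ∧ c p ≤ 1) → (∀ j y, c (j, y) = c (j, y % M)) →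
      η / 2 * ((∑ p ∈ V, c p) ^ 2 - n ^ 2 / L) ≤ ∑ p ∈ V, ∑ p' ∈ V, c p * c p' * F p p' := by
    intro c hc hcp
    have h1 := hTYP L M N η hM hη hη1 f havg c hc hcp
    have e1 : (L : ℝ) * ((M : ℝ) * N) ^ 2 = n ^ 2 / L := by
      rw [hMN, hn]
      field_simp
    rw [e1] at h1
    refine h1.trans (le_of_eq ?_)
    refine Finset.sum_congr rfl fun p _ => ?_
    rw [Finset.sum_filter]
    refine Finset.sum_congr rfl fun p' _ => ?_
    simp only [hF]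
    split_ifs <;> ring
  -- first lower bound
  set S : ℕ × ℕ → ℕ × ℕ → ℝ := fun g g' => ∑ h ∈ V, F g h * F g' h with hS
  have hS0 : ∀ g ∈ V, ∀ g' ∈ V, 0 ≤ S g g' := fun g hg g' hg' =>
    Finset.sum_nonneg fun h _ => mul_nonneg (hFb g hg h).1 (hFb g' hg' h).1
  have hstep1 : ∀ g ∈ V, ∀ g' ∈ V, F g g' * (η / 2 * (S g g' ^ 2 - n ^ 2 / L)) ≤
      ∑ z ∈ V, ∑ w ∈ V, U g g' * U g z * U g w * U g' z * U g' w * U z w := by
    intro g hg g' hg'
    have h1 := hTF (fun h => F g h * F g' h)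
      (fun h => ⟨mul_nonneg (hFb g hg h).1 (hFb g' hg' h).1,
        mul_le_one₀ (hFb g hg h).2 (hFb g' hg' h).1 (hFb g' hg' h).2⟩)
      (fun j y => by rw [hFp g j y, hFp g' j y])
    have h2 := mul_le_mul_of_nonneg_left h1 (hFb g hg g').1
    refine h2.trans ?_
    rw [Finset.mul_sum]
    refine Finset.sum_le_sum fun z hz => ?_
    rw [Finset.mul_sum]
    refine Finset.sum_le_sum fun w hw => ?_
    have a1 := (hFb g hg g').1
    have a2 := (hFb g hg z).1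
    have a3 := (hFb g hg w).1
    have a4 := (hFb g' hg' z).1
    have a5 := (hFb g' hg' w).1
    have a6 := (hFb z hz w).1
    have b1 := hFU g hg g' hg'
    have b2 := hFU g hg z hz
    have b3 := hFU g hg w hw
    have b4 := hFU g' hg' z hz
    have b5 := hFU g' hg' w hw
    have b6 := hFU z hz w hw
    have e2 : F g g' * (F g z * F g' z * (F g w * F g' w) * F z w) =
        F g g' * F g z * F g w * F g' z * F g' w * F z w := by ring
    rw [e2]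
    have c1 : F g g' * F g z ≤ U g g' * U g z := mul_le_mul b1 b2 a2 (a1.trans b1)
    have c1' : 0 ≤ F g g' * F g z := mul_nonneg a1 a2
    have c2 := mul_le_mul c1 b3 a3 (c1'.trans c1)
    have c2' := mul_nonneg c1' a3
    have c3 := mul_le_mul c2 b4 a4 (c2'.trans c2)
    have c3' := mul_nonneg c2' a4
    have c4 := mul_le_mul c3 b5 a5 (c3'.trans c3)
    have c4' := mul_nonneg c3' a5
    exact mul_le_mul c4 b6 a6 (c4'.trans c4)
  have hK : η / 2 * (∑ g ∈ V, ∑ g' ∈ V, F g g' * S g g' ^ 2 - n ^ 4 / L) ≤ K4 V U := by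
    have h1 : ∑ g ∈ V, ∑ g' ∈ V, F g g' * (η / 2 * (S g g' ^ 2 - n ^ 2 / L)) ≤ K4 V U := by
      unfold K4
      exact Finset.sum_le_sum fun g hg => Finset.sum_le_sum fun g' hg' => hstep1 g hg g' hg'
    refine le_trans ?_ h1
    have e1 : ∑ g ∈ V, ∑ g' ∈ V, F g g' * (η / 2 * (S g g' ^ 2 - n ^ 2 / L)) =
        η / 2 * (∑ g ∈ V, ∑ g' ∈ V, F g g' * S g g' ^ 2) - η / 2 * (n ^ 2 / L) * ∑ g ∈ V, ∑ g' ∈ V, F g g' := by
      rw [Finset.mul_sum, Finset.mul_sum, ← Finset.sum_sub_distrib]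
      refine Finset.sum_congr rfl fun g _ => ?_
      rw [Finset.mul_sum, Finset.mul_sum, ← Finset.sum_sub_distrib]
      refine Finset.sum_congr rfl fun g' _ => ?_
      ring
    have h2 : ∑ g ∈ V, ∑ g' ∈ V, F g g' ≤ n ^ 2 := by
      calc ∑ g ∈ V, ∑ g' ∈ V, F g g' ≤ ∑ _g ∈ V, ∑ _g' ∈ V, (1 : ℝ) :=
            Finset.sum_le_sum fun g hg => Finset.sum_le_sum fun g' _ => (hFb g hg g').2
        _ = n ^ 2 := by
            rw [Finset.sum_const, Finset.sum_const, nsmul_eq_mul, nsmul_eq_mul, mul_one, hcard]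
            ring
    rw [e1]
    have h3 : η / 2 * (n ^ 2 / L) * ∑ g ∈ V, ∑ g' ∈ V, F g g' ≤ η / 2 * (n ^ 2 / L) * n ^ 2 :=
      mul_le_mul_of_nonneg_left h2 (by positivity)
    have e3 : η / 2 * (n ^ 2 / L) * n ^ 2 = η / 2 * (n ^ 4 / L) := by ring
    rw [e3] at h3
    linarith
  -- second step
  set T : ℕ × ℕ → ℝ := fun g => ∑ g' ∈ V, F g g' * S g g' with hT
  set W : ℕ × ℕ → ℝ := fun g => ∑ h ∈ V, F g h with hW
  have hTS : ∀ g ∈ V, T g ^ 2 ≤ n * ∑ g' ∈ V, F g g' * S g g' ^ 2 := fun g hg =>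
    K4L_cs V (F g) (S g) n (fun h _ => hFb g hg h) hcard
  have hTW : ∀ g ∈ V, η / 2 * (W g ^ 2 - n ^ 2 / L) ≤ T g := by
    intro g hg
    have h1 := hTF (fun h => F g h) (fun h => hFb g hg h) (fun j y => hFp g j y)
    refine h1.trans (le_of_eq ?_)
    simp only [hT, hS]
    refine Finset.sum_congr rfl fun p _ => ?_
    rw [Finset.mul_sum]
    refine Finset.sum_congr rfl fun p' _ => ?_
    ring
  have hTT : (∑ g ∈ V, T g) ^ 2 ≤ n * ∑ g ∈ V, T g ^ 2 := by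
    have h1 := K4L_cs V (fun _ => 1) T n (fun _ _ => ⟨zero_le_one, le_refl _⟩) hcard
    simpa only [one_mul] using h1
  have hWW : (∑ g ∈ V, W g) ^ 2 ≤ n * ∑ g ∈ V, W g ^ 2 := by
    have h1 := K4L_cs V (fun _ => 1) W n (fun _ _ => ⟨zero_le_one, le_refl _⟩) hcard
    simpa only [one_mul] using h1
  have hL2 : (32 : ℝ) ≤ L := by
    have : η ^ 2 ≤ 1 := by nlinarith
    nlinarith
  have hWlow : η * n ^ 2 / 4 ≤ ∑ g ∈ V, W g := by
    have h1 := hTF (fun _ => 1) (fun _ => ⟨zero_le_one, le_refl _⟩) (fun _ _ => rfl)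
    have e1 : ∑ _p ∈ V, (1 : ℝ) = n := by rw [Finset.sum_const, nsmul_eq_mul, mul_one, hcard]
    rw [e1] at h1
    simp only [one_mul] at h1
    have h2 : n ^ 2 / L ≤ n ^ 2 / 2 := by
      apply div_le_div_of_nonneg_left (by positivity) (by norm_num) (by linarith)
    have h3 : η * n ^ 2 / 4 ≤ η / 2 * (n ^ 2 - n ^ 2 / L) := by nlinarith
    exact h3.trans h1
  have hnL : n ^ 2 / L ≤ η ^ 2 * n ^ 2 / 32 := by
    rw [div_le_div_iff₀ hLpos (by norm_num)]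
    nlinarith [sq_nonneg n]
  have hW2 : η ^ 2 * n ^ 3 / 16 ≤ ∑ g ∈ V, W g ^ 2 := by
    have h1 : (η * n ^ 2 / 4) ^ 2 ≤ n * ∑ g ∈ V, W g ^ 2 :=
      le_trans (pow_le_pow_left₀ (by positivity) hWlow 2) hWW
    have e : (η * n ^ 2 / 4) ^ 2 = n * (η ^ 2 * n ^ 3 / 16) := by ring
    rw [e] at h1
    exact le_of_mul_le_mul_left h1 hnpos
  have hTsum : η ^ 3 * n ^ 3 / 64 ≤ ∑ g ∈ V, T g := by
    have h1 : ∑ g ∈ V, η / 2 * (W g ^ 2 - n ^ 2 / L) ≤ ∑ g ∈ V, T g := Finset.sum_le_sum hTW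
    refine le_trans ?_ h1
    rw [← Finset.mul_sum, Finset.sum_sub_distrib, Finset.sum_const, nsmul_eq_mul, hcard]
    have h2 : n * (n ^ 2 / L) ≤ η ^ 2 * n ^ 3 / 32 := by
      have := mul_le_mul_of_nonneg_left hnL hnpos.le
      calc n * (n ^ 2 / L) ≤ n * (η ^ 2 * n ^ 2 / 32) := this
        _ = η ^ 2 * n ^ 3 / 32 := by ring
    have h3 : η ^ 2 * n ^ 3 / 32 ≤ ∑ g ∈ V, W g ^ 2 - n * (n ^ 2 / L) := by linarith
    calc η ^ 3 * n ^ 3 / 64 = η / 2 * (η ^ 2 * n ^ 3 / 32) := by ring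
      _ ≤ _ := mul_le_mul_of_nonneg_left h3 (by positivity)
  have hT2 : η ^ 6 * n ^ 5 / 4096 ≤ ∑ g ∈ V, T g ^ 2 := by
    have h1 : (η ^ 3 * n ^ 3 / 64) ^ 2 ≤ n * ∑ g ∈ V, T g ^ 2 :=
      le_trans (pow_le_pow_left₀ (by positivity) hTsum 2) hTT
    have e : (η ^ 3 * n ^ 3 / 64) ^ 2 = n * (η ^ 6 * n ^ 5 / 4096) := by ring
    rw [e] at h1
    exact le_of_mul_le_mul_left h1 hnpos
  have hmain : η ^ 6 * n ^ 4 / 4096 ≤ ∑ g ∈ V, ∑ g' ∈ V, F g g' * S g g' ^ 2 := by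
    have h1 : ∑ g ∈ V, T g ^ 2 ≤ n * ∑ g ∈ V, ∑ g' ∈ V, F g g' * S g g' ^ 2 := by
      rw [Finset.mul_sum]
      exact Finset.sum_le_sum hTS
    have h2 := hT2.trans h1
    have e : η ^ 6 * n ^ 5 / 4096 = n * (η ^ 6 * n ^ 4 / 4096) := by ring
    rw [e] at h2
    exact le_of_mul_le_mul_left h2 hnpos
  have hfin : η / 2 * (η ^ 6 * n ^ 4 / 4096 - n ^ 4 / L) ≤ K4 V U :=
    le_trans (mul_le_mul_of_nonneg_left (by linarith) (by positivity)) hK
  refine le_trans ?_ hfin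
  have e1 : (L : ℝ) * ((M : ℝ) * N) = n := by rw [hMN]
  rw [e1]
  have h5 : 0 ≤ n ^ 4 / L := by positivity
  have h6 : (η ^ 7 / 2 ^ 13 - 1 / L) * n ^ 4 = η ^ 7 * n ^ 4 / 8192 - n ^ 4 / L := by ring
  have h7 : η / 2 * (η ^ 6 * n ^ 4 / 4096 - n ^ 4 / L) = η ^ 7 * n ^ 4 / 8192 - η / 2 * (n ^ 4 / L) := by ring
  rw [h6, h7]
  nlinarith

end Pool.Agent.OP
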